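import Pool.Agent.Lib.MP_a4c1f4_lc.SQC.Spec

/-!
# SQC: the mass of the LOW steps of one scale in one block
-/

open Finset

namespace Pool.Agent.Lib.MP_a4c1f4_lc.SQC

section

variable {E T : ℕ} {C1 b0 eps : ℝ} {B p q : ℕ → ℕ → ℝ} {S : ℕ → Finset ℕ}
    {v gl gr rho : ℕ → ℕ} {s mL mR : ℕ → ℝ}

theorem Run.B_le (h : Run E T C1 b0 eps B p q S v gl gr rho s mL mR) {t k : ℕ} (ht : t ≤ T)
    (hk : k < E) : B t k ≤ B T k := by
  obtain ⟨d, rfl⟩ := Nat.exists_eq_add_of_le ht
  have : ∀ e, t + e ≤ t + d → B t k ≤ B (t + e) k := by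
    intro e
    induction e with
    | zero => intro _; exact le_rfl
    | succ e ih =>
      intro he
      exact (ih (by omega)).trans (h.mono (t + e) (by omega) k hk)
  exact this d le_rfl

theorem Run.q_nonneg (h : Run E T C1 b0 eps B p q S v gl gr rho s mL mR) {t x : ℕ} (ht : t < T)
    (hx : x ≤ E) : 0 ≤ q t x := (h.ok t ht).2.1 x hx

theorem Run.v_le (h : Run E T C1 b0 eps B p q S v gl gr rho s mL mR) {t : ℕ} (ht : t < T) :
    v t ≤ E := (h.ok t ht).1

theorem Run.p_nonneg (h : Run E T C1 b0 eps B p q S v gl gr rho s mL mR) {t x : ℕ} (ht : t ≤ T)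
    (hx : x ≤ E) : 0 ≤ p t x := by
  induction t with
  | zero => exact h.p0 x hx
  | succ t ih =>
    rw [h.upd t (by omega) x hx]
    have h1 := ih (by omega)
    have h2 := h.q_nonneg (t := t) (by omega) hx
    have h3 := h.s0 t (by omega)
    positivity

theorem Run.p_ge (h : Run E T C1 b0 eps B p q S v gl gr rho s mL mR) (D : Finset ℕ) {c : ℝ}
    {x : ℕ} (hx : x ≤ E) (hq : ∀ t, t ∈ D → t < T → c ≤ q t x) {n : ℕ} (hn : n ≤ T) :
    c * ∑ t ∈ range n, (if t ∈ D then s t else 0) ≤ p n x := by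
  induction n with
  | zero => simpa using h.p0 x hx
  | succ n ih =>
    rw [sum_range_succ, mul_add, h.upd n (by omega) x hx]
    have h1 := ih (by omega)
    have h2 := h.q_nonneg (t := n) (by omega) hx
    have h3 := h.s0 n (by omega)
    by_cases hD : n ∈ D
    · have h4 := hq n hD (by omega)
      rw [if_pos hD]
      have h5 : c * s n ≤ s n * q n x := by
        rw [mul_comm]
        exact mul_le_mul_of_nonneg_left h4 h3
      linarith
    · rw [if_neg hD]
      have h5 : 0 ≤ s n * q n x := mul_nonneg h3 h2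
      linarith

end

theorem tBlk (hR : S_Raise) : S_Blk := by
  intro E T C1 b0 eps B p q S v gl gr rho s mL mR R H L j hC hb hRp heps h hH hL hLH
  classical
  set D := (Low T R C1 p S v gl gr rho mL mR H).filter (fun t => v t / L = j) with hD
  have hBT : ∀ k, k < E → 0 < B T k := fun k hk => lt_of_lt_of_le hb (h.low T le_rfl k hk)
  have hZE : ∀ k, k ∈ Zs E L H j → k < E := by
    intro k hk
    exact mem_range.mp (mem_inter.mp hk).2
  have hZ0 : 0 ≤ ∑ k ∈ Zs E L H j, B T k := sum_nonneg (fun k hk => (hBT k (hZE k hk)).le)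
  rcases D.eq_empty_or_nonempty with hE | hne
  · rw [hE, sum_empty, mul_zero]
    positivity
  have hmem : ∀ t, t ∈ D → t < T ∧ H ≤ rho t ∧ R * p t (v t) < (H : ℝ) ∧
      4 * C1 * dY (S t) (v t) (gl t) (gr t) (mL t) (mR t) < (H : ℝ) ∧ v t / L = j := by
    intro t ht
    rw [hD, mem_filter, Low, mem_filter, mem_range] at ht
    exact ⟨ht.1.1, ht.1.2.1, ht.1.2.2.1, ht.1.2.2.2, ht.2⟩
  have hHr : (1 : ℝ) ≤ (H : ℝ) := by exact_mod_cast hH
  -- the raise of the steps of `D`
  have key : ∀ t, t ∈ D → (H : ℝ) * b0 ≤ ∑ k ∈ Zs E L H j, B T k ∧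
      ∀ x, x ≤ E → x / L = j → 3 / 16 * (H : ℝ) ^ 2 / (∑ k ∈ Zs E L H j, B T k) ≤ q t x := by
    intro t ht
    obtain ⟨h1, h2, h3, h4, h5⟩ := hmem t ht
    have hBt : ∀ k, k < E → 0 < B t k := fun k hk => lt_of_lt_of_le hb (h.low t h1.le k hk)
    obtain ⟨a, ha1, ha2, ha3⟩ := hR C1 E (B t) (S t) (v t) (gl t) (gr t) (mL t) (mR t) (q t)
      (rho t) H hC hBt (h.reg t h1) (h.ok t h1) hH h2 h4
    have hv1 : L * j ≤ v t := by
      rw [← h5]
      exact Nat.mul_div_le _ _
    have hv2 : v t < L * j + L := by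
      rw [← h5]
      have := Nat.lt_mul_div_succ (v t) (show 0 < L by omega)
      rw [Nat.mul_add, Nat.mul_one] at this
      exact this
    have hsub : Ico a (a + H) ⊆ Zs E L H j := by
      intro k hk
      rw [mem_Ico] at hk
      rw [Zs, mem_inter, mem_Ico, mem_range]
      omega
    have hsum1 : ∑ k ∈ Ico a (a + H), B T k ≤ ∑ k ∈ Zs E L H j, B T k :=
      sum_le_sum_of_subset_of_nonneg hsub (fun k hk _ => (hBT k (hZE k hk)).le)
    have hsum2 : (H : ℝ) * b0 ≤ ∑ k ∈ Ico a (a + H), B t k := by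
      have : ∑ k ∈ Ico a (a + H), b0 ≤ ∑ k ∈ Ico a (a + H), B t k := by
        refine sum_le_sum (fun k hk => ?_)
        rw [mem_Ico] at hk
        exact h.low t h1.le k (by omega)
      rw [sum_const, Nat.card_Ico, nsmul_eq_mul] at this
      have h6 : a + H - a = H := by omega
      rw [h6] at this
      exact this
    have hsum3 : ∑ k ∈ Ico a (a + H), B t k ≤ ∑ k ∈ Ico a (a + H), B T k := by
      refine sum_le_sum (fun k hk => ?_)
      rw [mem_Ico] at hk
      exact h.B_le h1.le (by omega)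
    refine ⟨by linarith, ?_⟩
    intro x hx hxj
    have hx1 : L * j ≤ x := by
      rw [← hxj]
      exact Nat.mul_div_le _ _
    have hx2 : x < L * j + L := by
      rw [← hxj]
      have := Nat.lt_mul_div_succ x (show 0 < L by omega)
      rw [Nat.mul_add, Nat.mul_one] at this
      exact this
    have habs : |(x : ℝ) - (v t : ℝ)| ≤ (L : ℝ) - 1 := by
      rw [abs_le]
      constructor
      · have h7 : v t ≤ x + L - 1 := by omega
        have h8 : (v t : ℝ) + 1 ≤ (x : ℝ) + L := by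
          have h9 : v t + 1 ≤ x + L := by omega
          exact_mod_cast h9
        linarith
      · have h8 : (x : ℝ) + 1 ≤ (v t : ℝ) + L := by
          have h9 : x + 1 ≤ v t + L := by omega
          exact_mod_cast h9
        linarith
    have h9 : 9 * C1 * |(x : ℝ) - (v t : ℝ)| ≤ (H : ℝ) :=
      (mul_le_mul_of_nonneg_left habs (by linarith)).trans hLH
    refine le_trans ?_ (ha3 x hx h9)
    have hpos : 0 < ∑ k ∈ Ico a (a + H), B t k :=
      lt_of_lt_of_le (by positivity) hsum2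
    exact div_le_div_of_nonneg_left (by positivity) hpos (hsum3.trans hsum1)
  -- the last step of `D`
  set m := D.max' hne with hm
  have hmD : m ∈ D := D.max'_mem hne
  obtain ⟨hk1, hk2⟩ := key m hmD
  obtain ⟨h1, h2, h3, h4, h5⟩ := hmem m hmD
  set Z := ∑ k ∈ Zs E L H j, B T k with hZ
  have hZpos : 0 < Z := lt_of_lt_of_le (by positivity) hk1
  set c := 3 / 16 * (H : ℝ) ^ 2 / Z with hc
  have hc0 : 0 < c := by positivity
  have hvm : v m ≤ E := h.v_le h1
  have h6 : c * ∑ t ∈ range m, (if t ∈ D then s t else 0) ≤ p m (v m) :=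
    h.p_ge D hvm (fun t ht _ => (key t ht).2 (v m) hvm h5) h1.le
  have h7 : ∑ t ∈ D, s t = ∑ t ∈ range m, (if t ∈ D then s t else 0) + s m := by
    have h8 : ∑ t ∈ range (m + 1), (if t ∈ D then s t else 0) = ∑ t ∈ D, s t := by
      rw [← sum_filter]
      refine sum_congr ?_ (fun _ _ => rfl)
      ext t
      rw [mem_filter, mem_range]
      constructor
      · exact fun h => h.2
      · intro ht
        have := D.le_max' t ht
        exact ⟨by omega, ht⟩
    rw [← h8, sum_range_succ, if_pos hmD]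
  have h8 : s m ≤ eps := h.s1 m h1
  set V := ∑ t ∈ D, s t with hV
  -- c (V - s m) ≤ p m (v m), R p < H, R eps ≤ b0
  have h9 : c * (V - s m) ≤ p m (v m) := by
    have : V - s m = ∑ t ∈ range m, (if t ∈ D then s t else 0) := by linarith
    rw [this]
    exact h6
  have h10 : R * (c * V) ≤ H + c * b0 := by
    have e1 : R * (c * V) = R * (c * (V - s m)) + c * (R * s m) := by ring
    have e2 : R * (c * (V - s m)) ≤ R * p m (v m) := mul_le_mul_of_nonneg_left h9 hRp.le
    have e3 : R * s m ≤ b0 := by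
      calc R * s m ≤ R * eps := mul_le_mul_of_nonneg_left h8 hRp.le
        _ = eps * R := mul_comm _ _
        _ ≤ b0 := heps
    have e4 : c * (R * s m) ≤ c * b0 := mul_le_mul_of_nonneg_left e3 hc0.le
    linarith
  have h11 : c * Z = 3 / 16 * (H : ℝ) ^ 2 := by
    rw [hc]
    field_simp
  have h12 : R * (3 / 16 * (H : ℝ) ^ 2 * V) ≤ H * Z + 3 / 16 * (H : ℝ) ^ 2 * b0 := by
    have e1 : R * (c * V) * Z ≤ (H + c * b0) * Z := mul_le_mul_of_nonneg_right h10 hZpos.le
    have e2 : R * (c * V) * Z = R * (3 / 16 * (H : ℝ) ^ 2 * V) := by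
      rw [← h11]; ring
    have e3 : (H + c * b0) * Z = H * Z + 3 / 16 * (H : ℝ) ^ 2 * b0 := by
      rw [← h11]; ring
    linarith
  have h13 : (H : ℝ) * (R * (H : ℝ) * V) ≤ (H : ℝ) * (19 / 3 * Z) := by
    have e1 : (H : ℝ) * (H * b0) ≤ (H : ℝ) * Z := mul_le_mul_of_nonneg_left hk1 (by positivity)
    nlinarith
  exact le_of_mul_le_mul_left h13 (by positivity)

end Pool.Agent.Lib.MP_a4c1f4_lc.SQC
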