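import Pool.Agent.Lib.MP_a4c1f4_lc.SQC.Spec

/-!
# SQC: classification of the steps, and the cost of a run
-/

open Finset

namespace Pool.Agent.Lib.MP_a4c1f4_lc.SQC

theorem exists_scale (H0 r : ℕ) (h0 : H0 ≤ r) (n : ℕ) (hn : r < 2 ^ n * H0) :
    ∃ i, i < n ∧ 2 ^ i * H0 ≤ r ∧ r < 2 * (2 ^ i * H0) := by
  induction n with
  | zero => simp at hn; omega
  | succ n ih =>
    by_cases h : r < 2 ^ n * H0
    · obtain ⟨i, h1, h2, h3⟩ := ih h
      exact ⟨i, by omega, h2, h3⟩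
    · refine ⟨n, by omega, by omega, ?_⟩
      have : 2 ^ (n + 1) * H0 = 2 * (2 ^ n * H0) := by ring
      omega

theorem dY_nonneg {E : ℕ} {B : ℕ → ℝ} {S : Finset ℕ} {v gl gr : ℕ} {mL mR : ℝ} {q : ℕ → ℝ}
    {rho : ℕ} (h : StpOK E B S v gl gr mL mR q rho) : 0 ≤ dY S v gl gr mL mR := by
  have hm : 0 ≤ mL ∧ 0 ≤ mR := by
    rcases h.2.2 with h | h | h | h
    · rw [h.1, h.2.1]; exact ⟨le_rfl, le_rfl⟩
    · exact ⟨h.2.2.2.1, h.2.2.2.2.1⟩
    · rw [h.2.2.1, h.2.2.2.1]; exact ⟨le_rfl, zero_le_one⟩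
    · rw [h.2.1, h.2.2.1]; exact ⟨zero_le_one, le_rfl⟩
  have h1 := hm.1
  have h2 := hm.2
  unfold dY
  positivity

theorem Run.p_nonneg' {E T : ℕ} {C1 b0 eps : ℝ} {B p q : ℕ → ℕ → ℝ} {S : ℕ → Finset ℕ}
    {v gl gr rho : ℕ → ℕ} {s mL mR : ℕ → ℝ}
    (h : Run E T C1 b0 eps B p q S v gl gr rho s mL mR) {t x : ℕ} (ht : t ≤ T)
    (hx : x ≤ E) : 0 ≤ p t x := by
  induction t with
  | zero => exact h.p0 x hx
  | succ t ih =>
    rw [h.upd t (by omega) x hx]
    have h1 := ih (by omega)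
    have h2 := (h.ok t (by omega)).2.1 x hx
    have h3 := h.s0 t (by omega)
    positivity

theorem tCls (hC5 : S_Cost) : S_Cls := by
  intro E T C1 b0 eps B p q S v gl gr rho s mL mR R K H0 t hC hb hR h hH0 ht hrho
  classical
  have hok := h.ok t ht
  have hBt : ∀ k, k < E → 0 < B t k := fun k hk => lt_of_lt_of_le hb (h.low t ht.le k hk)
  have h5 := hC5 C1 E (B t) (S t) (v t) (gl t) (gr t) (mL t) (mR t) (q t) (rho t) hC hBt
    (h.reg t ht) hok
  have hs : 0 ≤ s t := h.s0 t ht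
  have hp : 0 ≤ p t (v t) := h.p_nonneg' ht.le hok.1
  have hy : 0 ≤ dY (S t) (v t) (gl t) (gr t) (mL t) (mR t) := dY_nonneg hok
  set y := dY (S t) (v t) (gl t) (gr t) (mL t) (mR t) with hydef
  have hsum0 : ∀ i, i ∈ range K → 0 ≤ 2 * ((2 ^ i * H0 : ℕ) : ℝ) *
      (if t ∈ Low T R C1 p S v gl gr rho mL mR (2 ^ i * H0) then s t else 0) := by
    intro i _
    split_ifs
    · positivity
    · simp
  have hS0 := sum_nonneg hsum0
  have key : s t * (rho t : ℝ) ≤ (H0 : ℝ) * s t + 2 * R * (s t * p t (v t))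
      + 8 * C1 * (s t * y) + ∑ i ∈ range K, 2 * ((2 ^ i * H0 : ℕ) : ℝ) *
          (if t ∈ Low T R C1 p S v gl gr rho mL mR (2 ^ i * H0) then s t else 0) := by
    have e1 : 0 ≤ (H0 : ℝ) * s t := by positivity
    have e2 : 0 ≤ 2 * R * (s t * p t (v t)) := by positivity
    have e3 : 0 ≤ 8 * C1 * (s t * y) := by positivity
    rcases Nat.lt_or_ge (rho t) H0 with h0 | h0
    · have h1 : (rho t : ℝ) ≤ (H0 : ℝ) := by exact_mod_cast h0.le
      have h2 : s t * (rho t : ℝ) ≤ s t * (H0 : ℝ) := mul_le_mul_of_nonneg_left h1 hs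
      linarith
    · obtain ⟨i, hi, hi1, hi2⟩ := exists_scale H0 (rho t) h0 K hrho
      have hr2 : (rho t : ℝ) ≤ 2 * ((2 ^ i * H0 : ℕ) : ℝ) := by exact_mod_cast hi2.le
      by_cases hA : ((2 ^ i * H0 : ℕ) : ℝ) ≤ R * p t (v t)
      · have h2 : s t * (rho t : ℝ) ≤ s t * (2 * (R * p t (v t))) :=
          mul_le_mul_of_nonneg_left (hr2.trans (by linarith)) hs
        have h3 : s t * (2 * (R * p t (v t))) = 2 * R * (s t * p t (v t)) := by ring
        linarith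
      · by_cases hY : ((2 ^ i * H0 : ℕ) : ℝ) ≤ 4 * C1 * y
        · have h2 : s t * (rho t : ℝ) ≤ s t * (8 * C1 * y) :=
            mul_le_mul_of_nonneg_left (hr2.trans (by linarith)) hs
          have h3 : s t * (8 * C1 * y) = 8 * C1 * (s t * y) := by ring
          linarith
        · have hmem : t ∈ Low T R C1 p S v gl gr rho mL mR (2 ^ i * H0) := by
            rw [Low, mem_filter, mem_range]
            exact ⟨ht, hi1, lt_of_not_ge hA, lt_of_not_ge hY⟩
          have h2 := single_le_sum hsum0 (mem_range.mpr hi)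
          rw [if_pos hmem] at h2
          have h3 : s t * (rho t : ℝ) ≤ s t * (2 * ((2 ^ i * H0 : ℕ) : ℝ)) :=
            mul_le_mul_of_nonneg_left hr2 hs
          have h4 : s t * (2 * ((2 ^ i * H0 : ℕ) : ℝ)) = 2 * ((2 ^ i * H0 : ℕ) : ℝ) * s t := by
            ring
          linarith
  have h6 : s t * cst (v t) (gl t) (gr t) (mL t) (mR t) ≤
      s t * ((4 * C1 + 1) * ((rho t : ℝ) + y)) := mul_le_mul_of_nonneg_left h5 hs
  have h7 : s t * ((4 * C1 + 1) * ((rho t : ℝ) + y)) =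
      (4 * C1 + 1) * (s t * (rho t : ℝ) + s t * y) := by ring
  have h8 : (4 * C1 + 1) * (s t * (rho t : ℝ) + s t * y) ≤ (4 * C1 + 1) * ((H0 : ℝ) * s t
      + 2 * R * (s t * p t (v t)) + (8 * C1 + 1) * (s t * y)
      + ∑ i ∈ range K, 2 * ((2 ^ i * H0 : ℕ) : ℝ) *
          (if t ∈ Low T R C1 p S v gl gr rho mL mR (2 ^ i * H0) then s t else 0)) := by
    refine mul_le_mul_of_nonneg_left ?_ (by linarith)
    linarith
  linarith

theorem tTot (hCls : S_Cls) (hSc : S_Scale) : S_Tot := by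
  intro C1 hC1
  obtain ⟨A, hA⟩ := exists_nat_ge (9 * C1)
  have hA0 : (0 : ℝ) ≤ (A : ℝ) := by positivity
  refine ⟨(4 * C1 + 1) * (2 + (8 * C1 + 1) + 2 * (19 / 3 * (4 * (A : ℝ) + 1))), by positivity, ?_⟩
  intro E T K H0 b0 eps B p q S v gl gr rho s mL mR hb hK hH0 heps h hrho
  classical
  set R := Real.sqrt K with hR
  have hK1 : (1 : ℝ) ≤ (K : ℝ) := by exact_mod_cast hK
  have hR1 : 1 ≤ R := by
    rw [hR]
    exact Real.one_le_sqrt.mpr hK1
  have hRR : R * R = (K : ℝ) := Real.mul_self_sqrt (by positivity)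
  have hR0 : 0 < R := by linarith
  set y : ℕ → ℝ := fun t => dY (S t) (v t) (gl t) (gr t) (mL t) (mR t) with hy
  set Sb := ∑ k ∈ range E, B T k with hSb
  have hSb0 : 0 ≤ Sb :=
    sum_nonneg (fun k hk => (hb.le).trans (h.low T le_rfl k (mem_range.mp hk)))
  have hP0 : 0 ≤ ∑ t ∈ range T, s t * p t (v t) := by
    refine sum_nonneg (fun t ht => ?_)
    rw [mem_range] at ht
    exact mul_nonneg (h.s0 t ht) (h.p_nonneg' ht.le (h.ok t ht).1)
  have hY0 : 0 ≤ ∑ t ∈ range T, s t * y t := by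
    refine sum_nonneg (fun t ht => ?_)
    rw [mem_range] at ht
    exact mul_nonneg (h.s0 t ht) (dY_nonneg (h.ok t ht))
  have hM0 : 0 ≤ ∑ t ∈ range T, s t := by
    refine sum_nonneg (fun t ht => ?_)
    rw [mem_range] at ht
    exact h.s0 t ht
  -- one scale
  have hone : ∀ i, i ∈ range K → ∑ t ∈ range T, 2 * ((2 ^ i * H0 : ℕ) : ℝ) *
      (if t ∈ Low T R C1 p S v gl gr rho mL mR (2 ^ i * H0) then s t else 0) ≤
      2 * (19 / 3 * (4 * (A : ℝ) + 1)) * Sb / R := by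
    intro i _
    have hHi : 1 ≤ 2 ^ i * H0 := Nat.mul_pos (by positivity) hH0
    have h1 := hSc E T A C1 b0 eps B p q S v gl gr rho s mL mR R (2 ^ i * H0) hC1 hA hb hR0
      heps h hHi
    rw [← mul_sum]
    have h2 : ∑ t ∈ range T,
        (if t ∈ Low T R C1 p S v gl gr rho mL mR (2 ^ i * H0) then s t else 0) =
        ∑ t ∈ Low T R C1 p S v gl gr rho mL mR (2 ^ i * H0), s t := by
      rw [← sum_filter]
      refine sum_congr ?_ (fun _ _ => rfl)
      ext t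
      rw [mem_filter]
      constructor
      · exact fun h => h.2
      · intro ht
        refine ⟨?_, ht⟩
        rw [Low, mem_filter] at ht
        exact ht.1
    rw [h2, le_div_iff₀ hR0]
    calc 2 * ((2 ^ i * H0 : ℕ) : ℝ) *
          (∑ t ∈ Low T R C1 p S v gl gr rho mL mR (2 ^ i * H0), s t) * R
        = 2 * (R * ((2 ^ i * H0 : ℕ) : ℝ) *
          ∑ t ∈ Low T R C1 p S v gl gr rho mL mR (2 ^ i * H0), s t) := by ring
      _ ≤ 2 * (19 / 3 * (4 * (A : ℝ) + 1) * Sb) := mul_le_mul_of_nonneg_left h1 (by norm_num)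
      _ = 2 * (19 / 3 * (4 * (A : ℝ) + 1)) * Sb := by ring
  have hall : ∑ i ∈ range K, ∑ t ∈ range T, 2 * ((2 ^ i * H0 : ℕ) : ℝ) *
      (if t ∈ Low T R C1 p S v gl gr rho mL mR (2 ^ i * H0) then s t else 0) ≤
      R * (2 * (19 / 3 * (4 * (A : ℝ) + 1)) * Sb) := by
    refine (sum_le_sum hone).trans ?_
    rw [sum_const, card_range, nsmul_eq_mul, ← hRR]
    apply le_of_eq
    field_simp
  have hstep : ∑ t ∈ range T, s t * cst (v t) (gl t) (gr t) (mL t) (mR t) ≤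
      ∑ t ∈ range T, (4 * C1 + 1) * ((H0 : ℝ) * s t + 2 * R * (s t * p t (v t))
      + (8 * C1 + 1) * (s t * y t)
      + ∑ i ∈ range K, 2 * ((2 ^ i * H0 : ℕ) : ℝ) *
          (if t ∈ Low T R C1 p S v gl gr rho mL mR (2 ^ i * H0) then s t else 0)) := by
    refine sum_le_sum (fun t ht => ?_)
    rw [mem_range] at ht
    exact hCls E T C1 b0 eps B p q S v gl gr rho s mL mR R K H0 t hC1 hb hR0 h hH0 ht (hrho t ht)
  refine hstep.trans ?_
  rw [← mul_sum, sum_add_distrib, sum_add_distrib, sum_add_distrib, ← mul_sum, ← mul_sum,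
    ← mul_sum, sum_comm]
  set P := ∑ t ∈ range T, s t * p t (v t) with hP
  set Y := ∑ t ∈ range T, s t * y t with hYd
  set M := ∑ t ∈ range T, s t with hM
  set X := 19 / 3 * (4 * (A : ℝ) + 1) with hX
  have hX0 : 0 ≤ X := by rw [hX]; positivity
  have hRP : 0 ≤ R * P := by positivity
  have hRY : 0 ≤ R * Y := by positivity
  have hRS : 0 ≤ R * Sb := by positivity
  have hYY : Y ≤ R * Y := by nlinarith
  have hHM : 0 ≤ (H0 : ℝ) * M := by positivity
  calc (4 * C1 + 1) * ((H0 : ℝ) * M + 2 * R * P + (8 * C1 + 1) * Y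
        + ∑ i ∈ range K, ∑ t ∈ range T, 2 * ((2 ^ i * H0 : ℕ) : ℝ) *
          (if t ∈ Low T R C1 p S v gl gr rho mL mR (2 ^ i * H0) then s t else 0))
      ≤ (4 * C1 + 1) * ((H0 : ℝ) * M + 2 * (R * P) + (8 * C1 + 1) * (R * Y)
        + (2 * X) * (R * Sb)) := by
        refine mul_le_mul_of_nonneg_left ?_ (by linarith)
        have e1 : (8 * C1 + 1) * Y ≤ (8 * C1 + 1) * (R * Y) :=
          mul_le_mul_of_nonneg_left hYY (by linarith)
        have e2 : R * (2 * X * Sb) = 2 * X * (R * Sb) := by ring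
        rw [e2] at hall
        have e3 : 2 * R * P = 2 * (R * P) := by ring
        linarith
    _ ≤ (4 * C1 + 1) * ((2 + (8 * C1 + 1) + 2 * X) * (R * (P + Y + Sb) + (H0 : ℝ) * M)) := by
        refine mul_le_mul_of_nonneg_left ?_ (by linarith)
        have c1 : 0 ≤ 8 * C1 + 1 := by linarith
        have f1 : 0 ≤ (8 * C1 + 1) * (R * P) := mul_nonneg c1 hRP
        have f2 : 0 ≤ (8 * C1 + 1) * (R * Sb) := mul_nonneg c1 hRS
        have f3 : 0 ≤ (8 * C1 + 1) * ((H0 : ℝ) * M) := mul_nonneg c1 hHM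
        have f4 : 0 ≤ X * (R * P) := mul_nonneg hX0 hRP
        have f5 : 0 ≤ X * (R * Y) := mul_nonneg hX0 hRY
        have f6 : 0 ≤ X * ((H0 : ℝ) * M) := mul_nonneg hX0 hHM
        nlinarith
    _ = (4 * C1 + 1) * (2 + (8 * C1 + 1) + 2 * X) *
          (R * (P + Y + Sb) + (H0 : ℝ) * M) := by ring

end Pool.Agent.Lib.MP_a4c1f4_lc.SQC
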