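import Mathlib

/-!
# SQC: parts (5), (6), (7) of note 5105 (online matching on the line), definitions

One path with nodes `0 .. E` and edges `k < E`; edge `k` joins the nodes `k` and `k + 1`.
Only what the cost analysis needs is recorded: the regularized capacities `B`, the saturated
edges `S`, the node `v` of a small step, the ends `gl`, `gr` of the two paths, the split
`mL`, `mR`, the price raise `q x` per unit of mass and the distance `rho`.
-/

open Finset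

namespace Pool.Agent.Lib.MP_a4c1f4_lc.SQC

/-- Conductance of the edge `k`: zero if `k` is saturated, `1 / B k` otherwise. -/
noncomputable def ub (B : ℕ → ℝ) (S : Finset ℕ) (k : ℕ) : ℝ := if k ∈ S then 0 else 1 / B k

/-- Sum of the conductances of the edges in `[a, b)`. -/
noncomputable def RR (B : ℕ → ℝ) (S : Finset ℕ) (a b : ℕ) : ℝ := ∑ k ∈ Ico a b, ub B S k

/-- Regularity of the capacities `B` with the constant `C1`. -/
def Reg (E : ℕ) (C1 : ℝ) (B : ℕ → ℝ) : Prop :=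
  ∀ i k j, i ≤ k → k < j → j ≤ E →
    ((j : ℝ) - (i : ℝ)) * (1 / B k) ≤ C1 * ∑ x ∈ Ico i j, 1 / B x

/-- Distance moved by one unit of mass. -/
def cst (v gl gr : ℕ) (mL mR : ℝ) : ℝ := mL * ((v : ℝ) - (gl : ℝ)) + mR * ((gr : ℝ) - (v : ℝ))

/-- Saturated current of one unit of mass. -/
def dY (S : Finset ℕ) (v gl gr : ℕ) (mL mR : ℝ) : ℝ :=
  mL * ((Ico gl v ∩ S).card : ℝ) + mR * ((Ico v gr ∩ S).card : ℝ)

/-- One small step at the node `v`, as the cost analysis sees it. -/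
def StpOK (E : ℕ) (B : ℕ → ℝ) (S : Finset ℕ) (v gl gr : ℕ) (mL mR : ℝ) (q : ℕ → ℝ)
    (rho : ℕ) : Prop :=
  v ≤ E ∧ (∀ x, x ≤ E → 0 ≤ q x) ∧
  ((mL = 0 ∧ mR = 0 ∧ rho = 0) ∨
   (gl < v ∧ v < gr ∧ gr ≤ E ∧ 0 ≤ mL ∧ 0 ≤ mR ∧ mL + mR = 1 ∧
      mL * RR B S gl v = mR * RR B S v gr ∧
      (∀ x, gl ≤ x → x ≤ v → q x = mR * RR B S v gr - mL * RR B S x v) ∧
      (∀ x, v ≤ x → x ≤ gr → q x = mR * RR B S v gr - mR * RR B S v x) ∧
      rho = min (v - gl) (gr - v)) ∨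
   (v < gr ∧ gr ≤ E ∧ mL = 0 ∧ mR = 1 ∧
      (∀ x, x ≤ v → q x = RR B S v gr) ∧
      (∀ x, v ≤ x → x ≤ gr → q x = RR B S v gr - RR B S v x) ∧
      rho = gr - v) ∨
   (gl < v ∧ mL = 1 ∧ mR = 0 ∧
      (∀ x, v ≤ x → x ≤ E → q x = RR B S gl v) ∧
      (∀ x, gl ≤ x → x ≤ v → q x = RR B S gl v - RR B S x v) ∧
      rho = v - gl))

end Pool.Agent.Lib.MP_a4c1f4_lc.SQC
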