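import Pool.Agent.Lib.MP_a4c1f4_lc.SQC.Spec

/-!
# SQC: every edge is near at most `4 A + 1` blocks
-/

open Finset

namespace Pool.Agent.Lib.MP_a4c1f4_lc.SQC

theorem card_blocks (A L H J k : ℕ) (hL : 1 ≤ L) (hH : H ≤ 2 * A * L) :
    ((range J).filter (fun j => k ∈ Ico (L * j - H) (L * j + L + H))).card ≤ 4 * A + 1 := by
  have hsub : (range J).filter (fun j => k ∈ Ico (L * j - H) (L * j + L + H)) ⊆
      Icc (k / L - 2 * A) (k / L + 2 * A) := by
    intro j hj
    rw [mem_filter, mem_Ico] at hj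
    obtain ⟨_, h1, h2⟩ := hj
    rw [mem_Icc]
    have h3 : L * j ≤ k + 2 * A * L := by omega
    have h4 : j ≤ (k + 2 * A * L) / L := by
      rw [Nat.le_div_iff_mul_le (by omega)]
      calc j * L = L * j := Nat.mul_comm _ _
        _ ≤ k + 2 * A * L := h3
    rw [Nat.add_mul_div_right _ _ (by omega)] at h4
    have h5 : k < (j + 1 + 2 * A) * L := by
      have : (j + 1 + 2 * A) * L = L * j + L + 2 * A * L := by ring
      omega
    have h6 : k / L < j + 1 + 2 * A := (Nat.div_lt_iff_lt_mul (by omega)).mpr h5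
    omega
  refine (card_le_card hsub).trans ?_
  rw [Nat.card_Icc]
  omega

theorem tMult : S_Mult := by
  intro E A L H J w hL hH hw
  have h1 : ∀ j, ∑ k ∈ Zs E L H j, w k =
      ∑ k ∈ range E, if k ∈ Ico (L * j - H) (L * j + L + H) then w k else 0 := by
    intro j
    rw [← sum_filter]
    congr 1
    ext k
    simp only [Zs, mem_inter, mem_filter]
    tauto
  rw [sum_congr rfl (fun j _ => h1 j), sum_comm, mul_sum]
  refine sum_le_sum (fun k hk => ?_)
  rw [← sum_filter, sum_const, nsmul_eq_mul]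
  have h2 := card_blocks A L H J k hL hH
  have h3 : (((range J).filter (fun j => k ∈ Ico (L * j - H) (L * j + L + H))).card : ℝ) ≤
      4 * (A : ℝ) + 1 := by exact_mod_cast h2
  exact mul_le_mul_of_nonneg_right h3 (hw k (mem_range.mp hk))

end Pool.Agent.Lib.MP_a4c1f4_lc.SQC
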