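import Pool.Agent.Lib.MP_a4c1f4_lc.SQC.Spec

/-!
# SQC: the mass of the LOW steps of one scale
-/

open Finset

namespace Pool.Agent.Lib.MP_a4c1f4_lc.SQC

theorem tScale (hM : S_Mult) (hB : S_Blk) : S_Scale := by
  intro E T A C1 b0 eps B p q S v gl gr rho s mL mR R H hC hA hb hRp heps h hH
  classical
  have hA1 : 1 ≤ A := by
    have : (1 : ℝ) ≤ (A : ℝ) := by linarith
    exact_mod_cast this
  set L := max 1 (H / A) with hL
  have hL1 : 1 ≤ L := le_max_left _ _
  have hHA : H ≤ 2 * A * L := by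
    have h1 : H < A * (H / A + 1) := by
      have := Nat.lt_mul_div_succ H (show 0 < A by omega)
      exact this
    have h2 : H / A + 1 ≤ 2 * L := by
      have h3 : H / A ≤ L := le_max_right _ _
      omega
    calc H ≤ A * (H / A + 1) := h1.le
      _ ≤ A * (2 * L) := Nat.mul_le_mul_left _ h2
      _ = 2 * A * L := by ring
  have hLH : 9 * C1 * ((L : ℝ) - 1) ≤ (H : ℝ) := by
    rcases Nat.eq_zero_or_pos (H / A) with h0 | h0
    · have h1 : L = 1 := by rw [hL, h0]; rfl
      rw [h1]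
      have : (0 : ℝ) ≤ (H : ℝ) := by positivity
      simpa using this
    · have h1 : L = H / A := by
        rw [hL]
        exact max_eq_right h0
      have h2 : A * L ≤ H := by
        rw [h1]
        exact Nat.mul_div_le _ _
      have h3 : (A : ℝ) * (L : ℝ) ≤ (H : ℝ) := by exact_mod_cast h2
      have h4 : (1 : ℝ) ≤ (L : ℝ) := by exact_mod_cast hL1
      have h5 : 9 * C1 * ((L : ℝ) - 1) ≤ (A : ℝ) * ((L : ℝ) - 1) :=
        mul_le_mul_of_nonneg_right hA (by linarith)
      have h6 : (A : ℝ) * ((L : ℝ) - 1) ≤ (A : ℝ) * (L : ℝ) :=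
        mul_le_mul_of_nonneg_left (by linarith) (by linarith)
      linarith
  set D := Low T R C1 p S v gl gr rho mL mR H with hD
  have hBT : ∀ k, k < E → 0 ≤ B T k := fun k hk => (hb.le).trans (h.low T le_rfl k hk)
  have hsplit : ∑ t ∈ D, s t =
      ∑ j ∈ range (E / L + 1), ∑ t ∈ D.filter (fun t => v t / L = j), s t := by
    rw [sum_fiberwise_of_maps_to]
    intro t ht
    rw [hD, Low, mem_filter, mem_range] at ht
    have h1 : v t ≤ E := (h.ok t ht.1).1
    rw [mem_range]
    have := Nat.div_le_div_right (c := L) h1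
    omega
  have h1 := hM E A L H (E / L + 1) (fun k => B T k) hL1 hHA hBT
  rw [hsplit, mul_sum]
  calc ∑ j ∈ range (E / L + 1), R * (H : ℝ) * ∑ t ∈ D.filter (fun t => v t / L = j), s t
      ≤ ∑ j ∈ range (E / L + 1), 19 / 3 * ∑ k ∈ Zs E L H j, B T k := by
        refine sum_le_sum (fun j _ => ?_)
        have h2 := hB E T C1 b0 eps B p q S v gl gr rho s mL mR R H L j hC hb hRp heps h hH hL1 hLH
        rw [← hD] at h2
        exact h2
    _ = 19 / 3 * ∑ j ∈ range (E / L + 1), ∑ k ∈ Zs E L H j, B T k := by rw [mul_sum]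
    _ ≤ 19 / 3 * ((4 * (A : ℝ) + 1) * ∑ k ∈ range E, B T k) :=
        mul_le_mul_of_nonneg_left h1 (by norm_num)
    _ = 19 / 3 * (4 * (A : ℝ) + 1) * ∑ k ∈ range E, B T k := by ring

end Pool.Agent.Lib.MP_a4c1f4_lc.SQC
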