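import Pool.Agent.Lib.MP_a4c1f4_lc.SQC.Defs

/-!
# SQC: statements of the modules of parts (5), (6), (7) of note 5105

`R` stands for the square root of the number `K` of scales.
-/

open Finset

namespace Pool.Agent.Lib.MP_a4c1f4_lc.SQC

/-- (5) The distance moved by one unit of mass is at most a constant times `rho` plus the
saturated current. -/
def S_Cost : Prop :=
  ∀ (C1 : ℝ) (E : ℕ) (B : ℕ → ℝ) (S : Finset ℕ) (v gl gr : ℕ) (mL mR : ℝ) (q : ℕ → ℝ)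
    (rho : ℕ), 1 ≤ C1 → (∀ k, k < E → 0 < B k) → Reg E C1 B →
    StpOK E B S v gl gr mL mR q rho →
    cst v gl gr mL mR ≤ (4 * C1 + 1) * ((rho : ℝ) + dY S v gl gr mL mR)

/-- (6) If the saturated current is small, a step raises the price of all nodes near `v`. -/
def S_Raise : Prop :=
  ∀ (C1 : ℝ) (E : ℕ) (B : ℕ → ℝ) (S : Finset ℕ) (v gl gr : ℕ) (mL mR : ℝ) (q : ℕ → ℝ)
    (rho H : ℕ), 1 ≤ C1 → (∀ k, k < E → 0 < B k) → Reg E C1 B →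
    StpOK E B S v gl gr mL mR q rho → 1 ≤ H → H ≤ rho →
    4 * C1 * dY S v gl gr mL mR < (H : ℝ) →
    ∃ a, a + H ≤ E ∧ (a = v ∨ a + H = v) ∧
      ∀ x, x ≤ E → 9 * C1 * |(x : ℝ) - (v : ℝ)| ≤ (H : ℝ) →
        3 / 16 * (H : ℝ) ^ 2 / (∑ k ∈ Ico a (a + H), B k) ≤ q x

/-- The edges near the block `j` of nodes `L j, .., L j + L - 1`. -/
def Zs (E L H j : ℕ) : Finset ℕ := Ico (L * j - H) (L * j + L + H) ∩ range E

/-- Every edge is near at most `4 A + 1` blocks. -/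
def S_Mult : Prop :=
  ∀ (E A L H J : ℕ) (w : ℕ → ℝ), 1 ≤ L → H ≤ 2 * A * L → (∀ k, k < E → 0 ≤ w k) →
    ∑ j ∈ range J, ∑ k ∈ Zs E L H j, w k ≤ (4 * (A : ℝ) + 1) * ∑ k ∈ range E, w k

/-- A finite run of `T` small steps, as the cost analysis sees it. -/
structure Run (E T : ℕ) (C1 b0 eps : ℝ) (B p q : ℕ → ℕ → ℝ) (S : ℕ → Finset ℕ)
    (v gl gr rho : ℕ → ℕ) (s mL mR : ℕ → ℝ) : Prop where
  reg : ∀ t, t < T → Reg E C1 (B t)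
  low : ∀ t, t ≤ T → ∀ k, k < E → b0 ≤ B t k
  mono : ∀ t, t < T → ∀ k, k < E → B t k ≤ B (t + 1) k
  p0 : ∀ x, x ≤ E → 0 ≤ p 0 x
  upd : ∀ t, t < T → ∀ x, x ≤ E → p (t + 1) x = p t x + s t * q t x
  s0 : ∀ t, t < T → 0 ≤ s t
  s1 : ∀ t, t < T → s t ≤ eps
  ok : ∀ t, t < T → StpOK E (B t) (S t) (v t) (gl t) (gr t) (mL t) (mR t) (q t) (rho t)

/-- The steps of scale `H` with a low price which are not paid by the saturated current. -/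
noncomputable def Low (T : ℕ) (R C1 : ℝ) (p : ℕ → ℕ → ℝ) (S : ℕ → Finset ℕ)
    (v gl gr rho : ℕ → ℕ) (mL mR : ℕ → ℝ) (H : ℕ) : Finset ℕ :=
  open Classical in
  (range T).filter (fun t => H ≤ rho t ∧ R * p t (v t) < (H : ℝ) ∧
    4 * C1 * dY (S t) (v t) (gl t) (gr t) (mL t) (mR t) < (H : ℝ))

/-- (7), one scale and one block: the mass of the LOW steps. -/
def S_Blk : Prop :=
  ∀ (E T : ℕ) (C1 b0 eps : ℝ) (B p q : ℕ → ℕ → ℝ) (S : ℕ → Finset ℕ)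
    (v gl gr rho : ℕ → ℕ) (s mL mR : ℕ → ℝ) (R : ℝ) (H L j : ℕ), 1 ≤ C1 → 0 < b0 → 0 < R →
    eps * R ≤ b0 → Run E T C1 b0 eps B p q S v gl gr rho s mL mR → 1 ≤ H → 1 ≤ L →
    9 * C1 * ((L : ℝ) - 1) ≤ (H : ℝ) →
    R * (H : ℝ) * ∑ t ∈ (Low T R C1 p S v gl gr rho mL mR H).filter (fun t => v t / L = j), s t
      ≤ 19 / 3 * ∑ k ∈ Zs E L H j, B T k

/-- (7), one scale: the mass of all LOW steps. -/
def S_Scale : Prop :=
  ∀ (E T A : ℕ) (C1 b0 eps : ℝ) (B p q : ℕ → ℕ → ℝ) (S : ℕ → Finset ℕ)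
    (v gl gr rho : ℕ → ℕ) (s mL mR : ℕ → ℝ) (R : ℝ) (H : ℕ), 1 ≤ C1 → 9 * C1 ≤ (A : ℝ) →
    0 < b0 → 0 < R → eps * R ≤ b0 → Run E T C1 b0 eps B p q S v gl gr rho s mL mR → 1 ≤ H →
    R * (H : ℝ) * ∑ t ∈ Low T R C1 p S v gl gr rho mL mR H, s t
      ≤ 19 / 3 * (4 * (A : ℝ) + 1) * ∑ k ∈ range E, B T k

/-- (7), one step: its cost is paid by `H0`, by the price, by the saturated current, or it is a
LOW step of some scale. -/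
def S_Cls : Prop :=
  ∀ (E T : ℕ) (C1 b0 eps : ℝ) (B p q : ℕ → ℕ → ℝ) (S : ℕ → Finset ℕ)
    (v gl gr rho : ℕ → ℕ) (s mL mR : ℕ → ℝ) (R : ℝ) (K H0 t : ℕ), 1 ≤ C1 → 0 < b0 → 0 < R →
    Run E T C1 b0 eps B p q S v gl gr rho s mL mR → 1 ≤ H0 → t < T → rho t < 2 ^ K * H0 →
    s t * cst (v t) (gl t) (gr t) (mL t) (mR t) ≤ (4 * C1 + 1) * ((H0 : ℝ) * s t
      + 2 * R * (s t * p t (v t))
      + (8 * C1 + 1) * (s t * dY (S t) (v t) (gl t) (gr t) (mL t) (mR t))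
      + ∑ i ∈ range K, 2 * ((2 ^ i * H0 : ℕ) : ℝ) *
          (if t ∈ Low T R C1 p S v gl gr rho mL mR (2 ^ i * H0) then s t else 0))

/-- Parts (5), (6), (7) together: the cost of a run. -/
def S_Tot : Prop :=
  ∀ C1 : ℝ, 1 ≤ C1 → ∃ C : ℝ, 0 < C ∧
    ∀ (E T K H0 : ℕ) (b0 eps : ℝ) (B p q : ℕ → ℕ → ℝ) (S : ℕ → Finset ℕ)
    (v gl gr rho : ℕ → ℕ) (s mL mR : ℕ → ℝ), 0 < b0 → 1 ≤ K → 1 ≤ H0 →
    eps * Real.sqrt K ≤ b0 → Run E T C1 b0 eps B p q S v gl gr rho s mL mR →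
    (∀ t, t < T → rho t < 2 ^ K * H0) →
    ∑ t ∈ range T, s t * cst (v t) (gl t) (gr t) (mL t) (mR t) ≤
      C * (Real.sqrt K * (∑ t ∈ range T, s t * p t (v t)
        + ∑ t ∈ range T, s t * dY (S t) (v t) (gl t) (gr t) (mL t) (mR t)
        + ∑ k ∈ range E, B T k) + (H0 : ℝ) * ∑ t ∈ range T, s t)

end Pool.Agent.Lib.MP_a4c1f4_lc.SQC
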